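import Pool.Agent.W845.GL.Stm

set_option autoImplicit false

namespace Pool.Agent.W657.GL

open Filter MeasureTheory Finset
open scoped Topology
open Pool.Agent.W845.GL

theorem sg_cases (r : Bool) : sg r = 1 ∨ sg r = -1 := by
  cases r
  · right; simp [sg]
  · left; simp [sg]

theorem aa_b (j : ℕ) : 0 < aa j ∧ aa j ≤ 1 := by
  unfold aa
  have h1 : (1 : ℝ) ≤ Real.sqrt ((j : ℝ) + 1) := by
    rw [Real.one_le_sqrt]
    have : (0 : ℝ) ≤ j := Nat.cast_nonneg j
    linarith
  constructor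
  · positivity
  · rw [div_le_one (by linarith)]
    exact h1

theorem bb_b (j : ℕ) : 0 < bb j ∧ bb j ≤ 1 / 16 := by
  unfold bb
  constructor
  · positivity
  · rw [pow_succ]
    have : (1 / 16 : ℝ) ^ j ≤ 1 := pow_le_one₀ (by norm_num) (by norm_num)
    linarith

theorem ff_b (j : ℕ) (r s : Bool) : 0 ≤ ff j r s ∧ ff j r s ≤ 4 := by
  obtain ⟨a0, a1⟩ := aa_b j
  obtain ⟨b0, b1⟩ := bb_b j
  unfold ff
  have h1 : 0 ≤ 1 + bb j * sg r ∧ 1 + bb j * sg r ≤ 17 / 16 := by
    rcases sg_cases r with h | h <;> rw [h] <;> constructor <;> linarith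
  have h2 : 0 ≤ 1 + bb j * sg s ∧ 1 + bb j * sg s ≤ 17 / 16 := by
    rcases sg_cases s with h | h <;> rw [h] <;> constructor <;> linarith
  have h3 : 0 ≤ 1 + aa j * sg r * sg s ∧ 1 + aa j * sg r * sg s ≤ 2 := by
    rcases sg_cases r with h | h <;> rcases sg_cases s with h' | h' <;> rw [h, h'] <;>
      constructor <;> linarith
  constructor
  · exact mul_nonneg (mul_nonneg h1.1 h2.1) h3.1
  · have h4 : (1 + bb j * sg r) * (1 + bb j * sg s) ≤ 17 / 16 * (17 / 16) :=
      mul_le_mul h1.2 h2.2 h2.1 (by norm_num)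
    have h5 : (1 + bb j * sg r) * (1 + bb j * sg s) * (1 + aa j * sg r * sg s)
        ≤ 17 / 16 * (17 / 16) * 2 := mul_le_mul h4 h3.2 h3.1 (by norm_num)
    linarith

theorem ff_s (j : ℕ) (r s : Bool) : ff j r s = ff j s r := by
  unfold ff; ring

theorem KK_b (i : ℕ) (x y : Fin i → Bool) : 0 ≤ KK i x y ∧ KK i x y ≤ 4 ^ i := by
  unfold KK
  constructor
  · exact Finset.prod_nonneg fun j _ => (ff_b _ _ _).1
  · calc ∏ j : Fin i, ff j (x j) (y j) ≤ ∏ _j : Fin i, (4 : ℝ) :=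
        Finset.prod_le_prod (fun j _ => (ff_b _ _ _).1) (fun j _ => (ff_b _ _ _).2)
      _ = 4 ^ i := by simp

theorem KK_s (i : ℕ) (x y : Fin i → Bool) : KK i x y = KK i y x := by
  unfold KK
  exact Finset.prod_congr rfl fun j _ => ff_s _ _ _

theorem sum_bb (N : ℕ) : ∑ j ∈ range N, bb j = (1 - (1 / 16 : ℝ) ^ N) / 15 := by
  induction N with
  | zero => simp
  | succ N ih =>
    rw [Finset.sum_range_succ, ih]
    unfold bb
    rw [pow_succ]
    ring

theorem t0 : S_T0 := by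
  refine ⟨aa_b, bb_b, ff_b, ff_s, KK_b, KK_s, ?_, ?_, ?_, ?_⟩
  · intro i k F
    unfold tW
    refine div_nonneg (Finset.sum_nonneg fun x _ => Finset.prod_nonneg fun e _ => (KK_b _ _ _).1) ?_
    positivity
  · have h := (summable_geometric_of_lt_one (by norm_num : (0 : ℝ) ≤ 1 / 16) (by norm_num)).mul_left
      (1 / 16 : ℝ)
    refine h.congr fun j => ?_
    unfold bb
    rw [pow_succ]
    ring
  · have h := (summable_nat_add_iff 1).2 (Real.summable_one_div_nat_rpow.2
      (by norm_num : (1 : ℝ) < 3 / 2))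
    refine h.congr fun j => ?_
    unfold aa
    have h0 : (0 : ℝ) ≤ (j : ℝ) + 1 := by positivity
    rw [div_pow, one_pow, Real.sqrt_eq_rpow, ← Real.rpow_natCast, ← Real.rpow_mul h0]
    push_cast
    norm_num
  · intro N
    rw [sum_bb]
    have : (0 : ℝ) ≤ (1 / 16 : ℝ) ^ N := by positivity
    linarith

end Pool.Agent.W657.GL
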